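import Mathlib

set_option autoImplicit false

namespace Pool.Agent.MP_7aba48_co_CP

open Finset Polynomial

/-- nonnegative coefficients -/
def NN (P : ℝ[X]) : Prop := ∀ k, 0 ≤ P.coeff k

lemma NN.add {P Q : ℝ[X]} (hP : NN P) (hQ : NN Q) : NN (P + Q) := fun k => by
  rw [coeff_add]; exact add_nonneg (hP k) (hQ k)

lemma NN.mul {P Q : ℝ[X]} (hP : NN P) (hQ : NN Q) : NN (P * Q) := fun k => by
  rw [coeff_mul]; exact sum_nonneg fun x _ => mul_nonneg (hP _) (hQ _)

lemma NN.zero : NN 0 := fun k => by simp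

lemma NN.C {a : ℝ} (ha : 0 ≤ a) : NN (C a) := fun k => by
  rw [coeff_C]; split_ifs
  · exact ha
  · exact le_rfl

lemma NN.one : NN 1 := by
  have := NN.C (a := 1) zero_le_one
  simpa using this

lemma NN.sum {ι : Type*} (s : Finset ι) (f : ι → ℝ[X]) (h : ∀ i ∈ s, NN (f i)) :
    NN (∑ i ∈ s, f i) := fun k => by
  rw [finsetSum_coeff]; exact sum_nonneg fun i hi => h i hi k

lemma NN.prod {ι : Type*} (s : Finset ι) (f : ι → ℝ[X]) (h : ∀ i ∈ s, NN (f i)) :
    NN (∏ i ∈ s, f i) := by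
  classical
  induction s using Finset.induction_on with
  | empty => simpa using NN.one
  | insert x s hx ih =>
    rw [prod_insert hx]
    exact (h x (mem_insert_self x s)).mul (ih fun i hi => h i (mem_insert_of_mem hi))

/-- the generating factor of a Bernoulli variable -/
noncomputable def fac (p : ℝ) : ℝ[X] := 1 + C p * (X - 1)

lemma NN.fac {p : ℝ} (h0 : 0 ≤ p) (h1 : p ≤ 1) : NN (fac p) := by
  have : Pool.Agent.MP_7aba48_co_CP.fac p = Polynomial.C (1 - p) + Polynomial.C p * X := by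
    unfold Pool.Agent.MP_7aba48_co_CP.fac
    rw [C_sub, C_1]; ring
  rw [this]
  refine (NN.C (by linarith)).add ((NN.C h0).mul ?_)
  intro k
  rw [coeff_X]; split_ifs <;> norm_num

section key

variable {C' : Type*} [DecidableEq C']

lemma key (T : Finset C') (p r : C' → ℝ) (hp : ∀ c ∈ T, 0 ≤ p c ∧ p c ≤ 1)
    (hr : ∀ c ∈ T, 0 ≤ r c ∧ r c ≤ 1) :
    ∃ Q : ℝ[X], NN Q ∧ ∏ c ∈ T, fac (p c * (1 - r c)) =
      ∏ c ∈ T, fac (p c) - (X - 1) * ∑ c' ∈ T, C (r c' * p c') * ∏ c ∈ T.erase c', fac (p c)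
        + (X - 1) ^ 2 * Q := by
  induction T using Finset.induction_on with
  | empty => exact ⟨0, NN.zero, by simp⟩
  | insert x s hx ih =>
    obtain ⟨Q, hQ, hQe⟩ := ih (fun c hc => hp c (mem_insert_of_mem hc))
      (fun c hc => hr c (mem_insert_of_mem hc))
    obtain ⟨hpx0, hpx1⟩ := hp x (mem_insert_self x s)
    obtain ⟨hrx0, hrx1⟩ := hr x (mem_insert_self x s)
    refine ⟨fac (p x * (1 - r x)) * Q + C (r x * p x) *
      ∑ c' ∈ s, C (r c' * p c') * ∏ c ∈ s.erase c', fac (p c), ?_, ?_⟩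
    · refine ((NN.fac (mul_nonneg hpx0 (by linarith)) ?_).mul hQ).add ((NN.C (mul_nonneg hrx0 hpx0)).mul ?_)
      · calc p x * (1 - r x) ≤ 1 * 1 := mul_le_mul hpx1 (by linarith) (by linarith) zero_le_one
          _ = 1 := one_mul 1
      · apply NN.sum
        intro c hc
        have h1 := hp c (mem_insert_of_mem hc)
        have h2 := hr c (mem_insert_of_mem hc)
        refine (NN.C (mul_nonneg h2.1 h1.1)).mul (NN.prod _ _ fun i hi => ?_)
        have h3 := hp i (mem_insert_of_mem (mem_of_mem_erase hi))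
        exact NN.fac h3.1 h3.2
    · rw [prod_insert hx, prod_insert hx, sum_insert hx, erase_insert hx, hQe]
      have hsum : ∑ c' ∈ s, C (r c' * p c') * ∏ c ∈ (insert x s).erase c', fac (p c)
          = fac (p x) * ∑ c' ∈ s, C (r c' * p c') * ∏ c ∈ s.erase c', fac (p c) := by
        rw [mul_sum]
        apply sum_congr rfl
        intro c' hc'
        have hne : x ≠ c' := by rintro rfl; exact hx hc'
        rw [erase_insert_of_ne hne, prod_insert (by simp [hx])]
        ring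
      rw [hsum]
      have hfac : fac (p x * (1 - r x)) = fac (p x) - C (r x * p x) * (X - 1) := by
        unfold fac
        simp only [C_mul, C_sub, C_1]
        ring
      rw [hfac]
      ring

end key

/-- expectation of `h` against the coefficients of a polynomial -/
noncomputable def Ev (h : ℕ → ℝ) : ℝ[X] →ₗ[ℝ] ℝ :=
  Polynomial.lsum (fun k => (h k) • (LinearMap.id : ℝ →ₗ[ℝ] ℝ))

lemma Ev_apply (h : ℕ → ℝ) (P : ℝ[X]) : Ev h P = P.sum (fun k a => h k * a) := by
  unfold Ev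
  rw [Polynomial.lsum_apply]
  rfl

lemma Ev_monomial (h : ℕ → ℝ) (k : ℕ) (a : ℝ) : Ev h (monomial k a) = h k * a := by
  rw [Ev_apply, sum_monomial_index]
  simp

lemma Ev_X_pow (h : ℕ → ℝ) (k : ℕ) : Ev h (X ^ k) = h k := by
  rw [← monomial_one_right_eq_X_pow, Ev_monomial, mul_one]

lemma Ev_X_mul (h : ℕ → ℝ) (P : ℝ[X]) : Ev h (X * P) = Ev (fun k => h (k + 1)) P := by
  induction P using Polynomial.induction_on' with
  | add p q hp hq => rw [mul_add, map_add, map_add, hp, hq]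
  | monomial n a =>
    rw [X_mul_monomial, Ev_monomial, Ev_monomial]

lemma Ev_nonpos (h : ℕ → ℝ) (hh : ∀ k, h k ≤ 0) (P : ℝ[X]) (hP : NN P) : Ev h P ≤ 0 := by
  rw [Ev_apply, Polynomial.sum_def]
  exact sum_nonpos fun k _ => mul_nonpos_of_nonpos_of_nonneg (hh k) (hP k)

lemma Ev_C_mul (h : ℕ → ℝ) (a : ℝ) (P : ℝ[X]) : Ev h (C a * P) = a * Ev h P := by
  rw [C_mul', map_smul, smul_eq_mul]

lemma Ev_sub_fun (h h' : ℕ → ℝ) (P : ℝ[X]) :
    Ev (fun k => h k - h' k) P = Ev h P - Ev h' P := by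
  rw [Ev_apply, Ev_apply, Ev_apply, Polynomial.sum_def, Polynomial.sum_def, Polynomial.sum_def,
    ← sum_sub_distrib]
  exact sum_congr rfl fun k _ => by ring

lemma Ev_fac_mul (h : ℕ → ℝ) (p : ℝ) (P : ℝ[X]) :
    Ev h (fac p * P) = (1 - p) * Ev h P + p * Ev (fun k => h (k + 1)) P := by
  have : fac p * P = C (1 - p) * P + C p * (X * P) := by
    unfold fac; rw [C_sub, C_1]; ring
  rw [this, map_add, Ev_C_mul, Ev_C_mul, Ev_X_mul]

/-- concavity of a function on the naturals -/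
def Conc (h : ℕ → ℝ) : Prop := ∀ k, h (k + 2) - h (k + 1) ≤ h (k + 1) - h k

lemma Ev_sq_nonpos (h : ℕ → ℝ) (hh : Conc h) (Q : ℝ[X]) (hQ : NN Q) :
    Ev h ((X - 1) ^ 2 * Q) ≤ 0 := by
  have h1 : (X - 1 : ℝ[X]) ^ 2 * Q = X * (X * Q) - X * Q - (X * Q - Q) := by ring
  rw [h1, map_sub, map_sub, map_sub, Ev_X_mul, Ev_X_mul, Ev_X_mul]
  have h2 := Ev_nonpos (fun k => (h (k + 2) - h (k + 1)) - (h (k + 1) - h k))
    (fun k => by linarith [hh k]) Q hQ
  rw [Ev_sub_fun, Ev_sub_fun, Ev_sub_fun] at h2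
  exact h2

section step

variable {C' : Type*} [DecidableEq C']

/-- replacing one uniformly random deleted colour by independent thinning -/
lemma Ev_step (h : ℕ → ℝ) (hh : Conc h) (T L : Finset C') (hL : L.Nonempty) (p : C' → ℝ)
    (hp : ∀ c ∈ T, 0 ≤ p c ∧ p c ≤ 1) :
    (L.card : ℝ) * Ev h (∏ c ∈ T, fac (p c * (if c ∈ L then 1 - 1 / (L.card : ℝ) else 1))) ≤
      ∑ c' ∈ L, Ev h (∏ c ∈ T.erase c', fac (p c)) := by
  have hl : (0:ℝ) < L.card := by exact_mod_cast hL.card_pos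
  have hl1 : (1:ℝ) ≤ L.card := by exact_mod_cast hL.card_pos
  have hr1 : 1 / (L.card : ℝ) ≤ 1 := by rw [div_le_one hl]; exact hl1
  have hr0 : 0 ≤ 1 / (L.card : ℝ) := by positivity
  obtain ⟨Q, hQ, hQe⟩ := key T p (fun c => if c ∈ L then 1 / (L.card : ℝ) else 0) hp (by
    intro c _
    split_ifs
    · exact ⟨hr0, hr1⟩
    · exact ⟨le_rfl, zero_le_one⟩)
  have h1 : ∏ c ∈ T, fac (p c * (if c ∈ L then 1 - 1 / (L.card : ℝ) else 1)) =
      ∏ c ∈ T, fac (p c * (1 - if c ∈ L then 1 / (L.card : ℝ) else 0)) := by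
    apply prod_congr rfl
    intro c _
    split_ifs <;> simp
  rw [h1, hQe]
  have h2 : (C (L.card : ℝ) : ℝ[X]) * (∏ c ∈ T, fac (p c) - (X - 1) *
      ∑ c' ∈ T, C ((if c' ∈ L then 1 / (L.card : ℝ) else 0) * p c') * ∏ c ∈ T.erase c', fac (p c))
      = ∑ c' ∈ L, ∏ c ∈ T.erase c', fac (p c) := by
    have h3 : ∀ c' ∈ L, ∏ c ∈ T.erase c', fac (p c) = ∏ c ∈ T, fac (p c) -
        (if c' ∈ T then C (p c') * (X - 1) * ∏ c ∈ T.erase c', fac (p c) else 0) := by
      intro c' _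
      by_cases hc : c' ∈ T
      · rw [if_pos hc, ← mul_prod_erase T (fun c => fac (p c)) hc]
        unfold fac
        ring
      · rw [if_neg hc, erase_eq_of_notMem hc, sub_zero]
    rw [sum_congr rfl h3, sum_sub_distrib, sum_const, nsmul_eq_mul]
    rw [mul_sub]
    congr 1
    · rw [← sum_filter, mul_sum, mul_sum]
      have h4 : ∀ i ∈ T, C (L.card : ℝ) * ((X - 1) * (C ((if i ∈ L then 1 / (L.card : ℝ) else 0) * p i) *
          ∏ c ∈ T.erase i, fac (p c))) =
          if i ∈ L then C (p i) * (X - 1) * ∏ c ∈ T.erase i, fac (p c) else 0 := by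
        intro i _
        split_ifs
        · have : (C (L.card : ℝ) : ℝ[X]) * C (1 / (L.card : ℝ) * p i) = C (p i) := by
            rw [← C_mul]; congr 1; field_simp
          calc _ = (C (L.card : ℝ) * C (1 / (L.card : ℝ) * p i)) * ((X - 1) *
              ∏ c ∈ T.erase i, fac (p c)) := by ring
            _ = _ := by rw [this]; ring
        · simp
      rw [sum_congr rfl h4, ← sum_filter]
      apply sum_congr _ (fun _ _ => rfl)
      ext x
      simp only [mem_filter]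
      tauto
  have h5 := congrArg (Ev h) h2
  rw [Ev_C_mul, map_sum] at h5
  rw [← h5, map_add, mul_add]
  have := Ev_sq_nonpos h hh Q hQ
  have := mul_le_mul_of_nonneg_left this hl.le
  linarith

end step

end Pool.Agent.MP_7aba48_co_CP
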