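import Mathlib
import Pool.Agent.Lib.MP_7aba48_co_CP.Ev

set_option autoImplicit false

namespace Pool.Agent.MP_7aba48_co_CP

open Finset

/-- Poisson weights -/
noncomputable def po (k : ℕ) (μ : ℝ) : ℝ := Real.exp (-μ) * (μ ^ k / (k.factorial : ℝ))

/-- probability that a Poisson variable is less than `t` -/
noncomputable def Fp (t : ℕ) (μ : ℝ) : ℝ := ∑ k ∈ range t, po k μ

/-- expectation of `(t - N)⁺` for a Poisson variable `N` -/
noncomputable def Gp (t : ℕ) (μ : ℝ) : ℝ := ∑ j ∈ range t, Fp (j + 1) μ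

lemma po_nonneg {k : ℕ} {μ : ℝ} (h : 0 ≤ μ) : 0 ≤ po k μ := by
  unfold po; positivity

lemma Fp_succ (t : ℕ) (μ : ℝ) : Fp (t + 1) μ = Fp t μ + po t μ := by
  unfold Fp; rw [sum_range_succ]

lemma Gp_succ (t : ℕ) (μ : ℝ) : Gp (t + 1) μ = Gp t μ + Fp (t + 1) μ := by
  unfold Gp; rw [sum_range_succ]

lemma Fp_nonneg {t : ℕ} {μ : ℝ} (h : 0 ≤ μ) : 0 ≤ Fp t μ :=
  sum_nonneg fun _ _ => po_nonneg h

lemma hasDerivAt_po_zero (μ : ℝ) : HasDerivAt (po 0) (-po 0 μ) μ := by
  have h1 : HasDerivAt (fun x : ℝ => Real.exp (-x)) (Real.exp (-μ) * (-1)) μ :=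
    (hasDerivAt_neg μ).exp
  have h2 : po 0 = fun x : ℝ => Real.exp (-x) := by
    ext x; simp [po]
  rw [h2]
  simpa using h1

lemma hasDerivAt_po_succ (k : ℕ) (μ : ℝ) :
    HasDerivAt (po (k + 1)) (po k μ - po (k + 1) μ) μ := by
  have h1 : HasDerivAt (fun x : ℝ => Real.exp (-x)) (Real.exp (-μ) * (-1)) μ :=
    (hasDerivAt_neg μ).exp
  have h2 : HasDerivAt (fun x : ℝ => x ^ (k + 1) / ((k + 1).factorial : ℝ))
      (((k + 1 : ℕ) : ℝ) * μ ^ k / ((k + 1).factorial : ℝ)) μ := by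
    have := (hasDerivAt_pow (k + 1) μ).div_const ((k + 1).factorial : ℝ)
    simpa using this
  have h3 := h1.mul h2
  have h4 : po (k + 1) = fun x : ℝ => Real.exp (-x) * (x ^ (k + 1) / ((k + 1).factorial : ℝ)) := by
    ext x; rfl
  rw [h4]
  refine h3.congr_deriv ?_
  unfold po
  have h5 : ((k + 1).factorial : ℝ) = ((k + 1 : ℕ) : ℝ) * (k.factorial : ℝ) := by
    rw [Nat.factorial_succ]; push_cast; ring
  have h6 : ((k + 1 : ℕ) : ℝ) ≠ 0 := by positivity
  have h7 : (k.factorial : ℝ) ≠ 0 := by positivity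
  rw [h5]
  field_simp
  ring

lemma hasDerivAt_Fp_succ (t : ℕ) (μ : ℝ) : HasDerivAt (Fp (t + 1)) (-po t μ) μ := by
  induction t with
  | zero =>
    have : Fp (0 + 1) = po 0 := by ext x; simp [Fp]
    rw [this]; exact hasDerivAt_po_zero μ
  | succ t ih =>
    have : Fp (t + 1 + 1) = Fp (t + 1) + po (t + 1) := by
      ext x; rw [Fp_succ]; rfl
    rw [this]
    refine (ih.add (hasDerivAt_po_succ t μ)).congr_deriv ?_
    ring

lemma hasDerivAt_Gp (t : ℕ) (μ : ℝ) : HasDerivAt (Gp t) (-Fp t μ) μ := by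
  induction t with
  | zero =>
    have : Gp 0 = fun _ => 0 := by ext x; simp [Gp]
    rw [this]
    simpa [Fp] using hasDerivAt_const μ (0:ℝ)
  | succ t ih =>
    have : Gp (t + 1) = Gp t + Fp (t + 1) := by
      ext x; rw [Gp_succ]; rfl
    rw [this]
    refine (ih.add (hasDerivAt_Fp_succ t μ)).congr_deriv ?_
    rw [Fp_succ]; ring

lemma Fp_antitone (t : ℕ) : AntitoneOn (Fp t) (Set.Ici 0) := by
  cases t with
  | zero =>
    intro x _ y _ _
    simp [Fp]
  | succ t =>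
    apply antitoneOn_of_deriv_nonpos (convex_Ici 0)
    · exact fun x _ => (hasDerivAt_Fp_succ t x).continuousAt.continuousWithinAt
    · exact fun x _ => (hasDerivAt_Fp_succ t x).differentiableAt.differentiableWithinAt
    · intro x hx
      rw [interior_Ici] at hx
      rw [(hasDerivAt_Fp_succ t x).deriv]
      linarith [po_nonneg (k := t) (le_of_lt hx)]

lemma Gp_convex (t : ℕ) : ConvexOn ℝ (Set.Ici 0) (Gp t) := by
  apply MonotoneOn.convexOn_of_deriv (convex_Ici 0)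
  · exact fun x _ => (hasDerivAt_Gp t x).continuousAt.continuousWithinAt
  · exact fun x _ => (hasDerivAt_Gp t x).differentiableAt.differentiableWithinAt
  · intro x hx y hy hxy
    rw [(hasDerivAt_Gp t x).deriv, (hasDerivAt_Gp t y).deriv]
    exact neg_le_neg (Fp_antitone t (interior_subset hx) (interior_subset hy) hxy)

lemma Gp_antitone (t : ℕ) : AntitoneOn (Gp t) (Set.Ici 0) := by
  apply antitoneOn_of_deriv_nonpos (convex_Ici 0)
  · exact fun x _ => (hasDerivAt_Gp t x).continuousAt.continuousWithinAt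
  · exact fun x _ => (hasDerivAt_Gp t x).differentiableAt.differentiableWithinAt
  · intro x hx
    rw [(hasDerivAt_Gp t x).deriv]
    linarith [Fp_nonneg (t := t) (interior_subset hx)]

lemma Gp_tangent (t : ℕ) {μ p : ℝ} (hμ : 0 ≤ μ) (hp : 0 ≤ p) :
    Gp t μ - p * Fp t μ ≤ Gp t (μ + p) := by
  have h := Convex.mul_sub_le_image_sub_of_le_deriv (convex_Ici μ)
    (f := Gp t) (C := -Fp t μ)
    (fun x _ => (hasDerivAt_Gp t x).continuousAt.continuousWithinAt)
    (fun x _ => (hasDerivAt_Gp t x).differentiableAt.differentiableWithinAt)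
    (by
      intro x hx
      rw [(hasDerivAt_Gp t x).deriv]
      have hx' : μ ≤ x := interior_subset hx
      exact neg_le_neg (Fp_antitone t hμ (hμ.trans hx') hx'))
    μ (Set.mem_Ici.2 le_rfl) (μ + p) (Set.mem_Ici.2 (by linarith)) (by linarith)
  have : μ + p - μ = p := by ring
  rw [this] at h
  linarith

lemma Gp_zero_right (t : ℕ) : Gp t 0 = t := by
  unfold Gp Fp po
  have : ∀ j ∈ range t, ∑ k ∈ range (j + 1), Real.exp (-0) * ((0:ℝ) ^ k / (k.factorial : ℝ)) = 1 := by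
    intro j _
    rw [sum_range_succ']
    have h : ∀ k ∈ range j, Real.exp (-0) * ((0:ℝ) ^ (k + 1) / ((k + 1).factorial : ℝ)) = 0 := by
      intro k _; simp
    rw [sum_congr rfl h]; simp
  rw [sum_congr rfl this]; simp

section

variable {C' : Type*} [DecidableEq C']

/-- the Poisson variable dominates sums of Bernoulli variables for `(t - ·)⁺` -/
lemma Ev_pos_part_le (T : Finset C') (p : C' → ℝ) :
    (∀ c ∈ T, 0 ≤ p c ∧ p c ≤ 1) → ∀ t : ℕ,
    Ev (fun s => ((t - s : ℕ) : ℝ)) (∏ c ∈ T, fac (p c)) ≤ Gp t (∑ c ∈ T, p c) := by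
  induction T using Finset.induction_on with
  | empty =>
    intro _ t
    rw [prod_empty, sum_empty, Gp_zero_right]
    have := Ev_X_pow (fun s => ((t - s : ℕ) : ℝ)) 0
    rw [pow_zero] at this
    rw [this]; simp
  | insert x s hx ih =>
    intro hp t
    have hp' : ∀ c ∈ s, 0 ≤ p c ∧ p c ≤ 1 := fun c hc => hp c (mem_insert_of_mem hc)
    have hih := ih hp'
    obtain ⟨hx0, hx1⟩ := hp x (mem_insert_self x s)
    have hμ : 0 ≤ ∑ c ∈ s, p c := sum_nonneg fun c hc => (hp' c hc).1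
    rw [prod_insert hx, sum_insert hx, Ev_fac_mul]
    cases t with
    | zero =>
      have h0 := hih 0
      have h1 : Gp 0 (p x + ∑ c ∈ s, p c) = 0 := by simp [Gp]
      have h2 : Gp 0 (∑ c ∈ s, p c) = 0 := by simp [Gp]
      rw [h2] at h0
      rw [h1]
      have h3 : Ev (fun k => ((0 - (k + 1) : ℕ) : ℝ)) (∏ c ∈ s, fac (p c)) =
          Ev (fun s => ((0 - s : ℕ) : ℝ)) (∏ c ∈ s, fac (p c)) := by
        congr 2
        ext k; simp
      rw [h3]
      have h4 := mul_le_mul_of_nonneg_left h0 (by linarith : 0 ≤ 1 - p x)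
      have h5 := mul_le_mul_of_nonneg_left h0 hx0
      linarith
    | succ t =>
      have h1 := hih (t + 1)
      have h2 := hih t
      have h3 : Ev (fun k => ((t + 1 - (k + 1) : ℕ) : ℝ)) (∏ c ∈ s, fac (p c)) =
          Ev (fun s => ((t - s : ℕ) : ℝ)) (∏ c ∈ s, fac (p c)) := by
        congr 2
        ext k; congr 1; omega
      rw [h3]
      have h4 := mul_le_mul_of_nonneg_left h1 (by linarith : 0 ≤ 1 - p x)
      have h5 := mul_le_mul_of_nonneg_left h2 hx0
      have h6 := Gp_tangent (t + 1) hμ hx0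
      have h7 := Gp_succ t (∑ c ∈ s, p c)
      rw [add_comm (∑ c ∈ s, p c) (p x)] at h6
      nlinarith

lemma Ev_id (T : Finset C') (p : C' → ℝ) :
    Ev (fun s => (s : ℝ)) (∏ c ∈ T, fac (p c)) = ∑ c ∈ T, p c := by
  have hone : ∀ T : Finset C', Ev (fun _ => (1:ℝ)) (∏ c ∈ T, fac (p c)) = 1 := by
    intro T
    induction T using Finset.induction_on with
    | empty =>
      have := Ev_X_pow (fun _ => (1 : ℝ)) 0
      rw [pow_zero] at this
      rw [prod_empty, this]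
    | insert x s hx ih =>
      rw [prod_insert hx, Ev_fac_mul, ih]; ring
  induction T using Finset.induction_on with
  | empty =>
    have := Ev_X_pow (fun s => (s : ℝ)) 0
    rw [pow_zero] at this
    rw [prod_empty, this]; simp
  | insert x s hx ih =>
    rw [prod_insert hx, sum_insert hx, Ev_fac_mul, ih]
    have h : Ev (fun k => ((k + 1 : ℕ) : ℝ)) (∏ c ∈ s, fac (p c)) -
        Ev (fun k => (k : ℝ)) (∏ c ∈ s, fac (p c)) = 1 := by
      rw [← Ev_sub_fun, ← hone s]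
      congr 2
      ext k; push_cast; ring
    rw [ih] at h
    have h' : Ev (fun k => ((k + 1 : ℕ) : ℝ)) (∏ c ∈ s, fac (p c)) = 1 + ∑ c ∈ s, p c := by
      linarith
    rw [h']; ring

end

/-- the concave potential -/
noncomputable def pot (A : ℝ) (m : ℕ) (B : ℕ → ℝ) (s : ℕ) : ℝ :=
  -1 + A * s + ∑ t ∈ range m, B t * ((t : ℝ) - ((t - s : ℕ) : ℝ))

/-- its Poisson transform -/
noncomputable def Hp (A : ℝ) (m : ℕ) (B : ℕ → ℝ) (μ : ℝ) : ℝ :=
  -1 + A * μ + ∑ t ∈ range m, B t * ((t : ℝ) - Gp t μ)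

lemma Hp_mono {A : ℝ} {m : ℕ} {B : ℕ → ℝ} (hA : 0 ≤ A) (hB : ∀ t, 0 ≤ B t) {x y : ℝ} (hx : 0 ≤ x)
    (hxy : x ≤ y) : Hp A m B x ≤ Hp A m B y := by
  unfold Hp
  have h1 : A * x ≤ A * y := mul_le_mul_of_nonneg_left hxy hA
  have h2 : ∑ t ∈ range m, B t * ((t : ℝ) - Gp t x) ≤ ∑ t ∈ range m, B t * ((t : ℝ) - Gp t y) := by
    apply sum_le_sum
    intro t _
    apply mul_le_mul_of_nonneg_left _ (hB t)
    linarith [Gp_antitone t (Set.mem_Ici.2 hx) (Set.mem_Ici.2 (hx.trans hxy)) hxy]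
  linarith

/-- `Hp` lies above the chords through lower bounds of its values -/
lemma Hp_chord {A : ℝ} {m : ℕ} {B : ℕ → ℝ} (hB : ∀ t, 0 ≤ B t) {x y z a b : ℝ}
    (hx : 0 ≤ x) (hxy : x < y) (ha : a ≤ Hp A m B x) (hb : b ≤ Hp A m B y) (hz1 : x ≤ z)
    (hz2 : z ≤ y) : a + (b - a) / (y - x) * (z - x) ≤ Hp A m B z := by
  set θ := (z - x) / (y - x) with hθ
  have hyx : 0 < y - x := by linarith
  have hθ0 : 0 ≤ θ := div_nonneg (by linarith) hyx.le
  have hθ1 : θ ≤ 1 := by rw [hθ, div_le_one hyx]; linarith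
  have hz : z = (1 - θ) * x + θ * y := by
    rw [hθ]; field_simp; ring
  have hG : ∀ t, Gp t z ≤ (1 - θ) * Gp t x + θ * Gp t y := by
    intro t
    have := (Gp_convex t).2 (Set.mem_Ici.2 hx) (Set.mem_Ici.2 (hx.trans hxy.le))
      (by linarith : 0 ≤ 1 - θ) hθ0 (by ring)
    simp only [smul_eq_mul] at this
    rw [hz]; exact this
  have h1 : (1 - θ) * Hp A m B x + θ * Hp A m B y ≤ Hp A m B z := by
    unfold Hp
    have h2 : ∑ t ∈ range m, B t * ((t : ℝ) - Gp t z) ≥
        (1 - θ) * ∑ t ∈ range m, B t * ((t : ℝ) - Gp t x)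
          + θ * ∑ t ∈ range m, B t * ((t : ℝ) - Gp t y) := by
      rw [mul_sum, mul_sum, ← sum_add_distrib]
      apply sum_le_sum
      intro t _
      nlinarith [hG t, hB t, mul_le_mul_of_nonneg_left (hG t) (hB t)]
    have h3 : A * z = (1 - θ) * (A * x) + θ * (A * y) := by rw [hz]; ring
    rw [h3]
    nlinarith [h2]
  have h4 : a + (b - a) / (y - x) * (z - x) = (1 - θ) * a + θ * b := by
    rw [hθ]; field_simp; ring
  rw [h4]
  have h5 := mul_le_mul_of_nonneg_left ha (by linarith : 0 ≤ 1 - θ)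
  have h6 := mul_le_mul_of_nonneg_left hb hθ0
  linarith

end Pool.Agent.MP_7aba48_co_CP
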