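import Mathlib
import Pool.Agent.Lib.MP_7aba48_co.Col
import Pool.Agent.Lib.MP_7aba48_co_CP.Pois

set_option autoImplicit false

namespace Pool.Agent.MP_7aba48_co_CP

open Finset Pool.Agent.MP_7aba48_co

section

variable {V C : Type*} [Fintype V] [DecidableEq V] [DecidableEq C]
variable {G : SimpleGraph V} [DecidableRel G.Adj] {c₀ : C} {Λ : V → Finset C}

/-- one resampling step -/
lemma stepE {h : ℕ → ℝ} (hh : Conc h) {S U R : Finset V} {v u : V}
    (hUS : U ⊆ S) (hU : ∀ x ∈ U, ∀ y ∈ U, ¬ G.Adj x y) (hu : u ∈ U) (huR : u ∉ R) :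
    ∑ f ∈ Col G c₀ Λ S, Ev h (∏ c ∈ free Λ v R f, fac (pr G Λ S f (U \ R) c)) ≤
    ∑ f ∈ Col G c₀ Λ S, Ev h (∏ c ∈ free Λ v (insert u R) f,
      fac (pr G Λ S f (U \ insert u R) c)) := by
  classical
  rw [sum_Col_eq (hUS hu), sum_Col_eq (hUS hu)]
  apply sum_le_sum
  intro g hg
  set L := avail G Λ (S.erase u) u g with hL
  by_cases hLe : L.Nonempty
  swap
  · rw [not_nonempty_iff_eq_empty] at hLe
    rw [hLe]; simp
  set T := free Λ v R g with hT
  -- the probability factor does not depend on the colour of u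
  set p : C → ℝ := fun c => ∏ w ∈ U \ insert u R,
    (if c ∈ avail G Λ (S.erase u) w g then 1 - 1 / ((avail G Λ (S.erase u) w g).card : ℝ) else 1)
    with hp
  have hav : ∀ w ∈ U, ∀ c', avail G Λ S w (Function.update g u c') = avail G Λ (S.erase u) w g :=
    fun w hw c' => avail_update (hU w hw u hu) g c'
  have hpr1 : ∀ c' c, pr G Λ S (Function.update g u c') (U \ insert u R) c = p c := by
    intro c' c
    unfold pr
    apply prod_congr rfl
    intro w hw
    rw [hav w (mem_sdiff.1 hw).1]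
  have hpr2 : ∀ c' c, pr G Λ S (Function.update g u c') (U \ R) c
      = p c * (if c ∈ L then 1 - 1 / (L.card : ℝ) else 1) := by
    intro c' c
    have hins : U \ R = insert u (U \ insert u R) := by
      ext x
      simp only [mem_sdiff, mem_insert]
      constructor
      · rintro ⟨h1, h2⟩
        by_cases hx : x = u
        · exact Or.inl hx
        · exact Or.inr ⟨h1, by tauto⟩
      · rintro (h | ⟨h1, h2⟩)
        · subst h; exact ⟨hu, huR⟩
        · exact ⟨h1, by tauto⟩
    rw [hins]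
    unfold pr
    rw [prod_insert (by simp)]
    rw [hav u hu, mul_comm]
    congr 1
    apply prod_congr rfl
    intro w hw
    rw [hav w (mem_sdiff.1 hw).1]
  have hfree1 : ∀ c', free Λ v R (Function.update g u c') = T := by
    intro c'
    rw [hT]
    ext x
    rw [mem_free, mem_free]
    refine and_congr_right fun _ => ⟨fun h w hw => ?_, fun h w hw => ?_⟩
    · have hne : w ≠ u := by rintro rfl; exact huR hw
      have := h w hw
      rwa [Function.update_of_ne hne] at this
    · have hne : w ≠ u := by rintro rfl; exact huR hw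
      rw [Function.update_of_ne hne]
      exact h w hw
  have hfree2 : ∀ c', free Λ v (insert u R) (Function.update g u c') = T.erase c' := by
    intro c'
    rw [← hfree1 c']
    ext x
    rw [mem_erase, mem_free, mem_free]
    constructor
    · rintro ⟨h1, h2⟩
      refine ⟨?_, h1, fun w hw => h2 w (mem_insert_of_mem hw)⟩
      have := h2 u (mem_insert_self u R)
      rw [Function.update_self] at this
      exact this.symm
    · rintro ⟨h1, h2, h3⟩
      refine ⟨h2, fun w hw => ?_⟩
      rcases mem_insert.1 hw with h | h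
      · subst h; rw [Function.update_self]; exact h1.symm
      · exact h3 w h
  have hp0 : ∀ c, 0 ≤ p c := fun c => by
    rw [← hpr1 c₀ c]; exact pr_nonneg
  have hp1 : ∀ c, p c ≤ 1 := fun c => by
    rw [← hpr1 c₀ c]; exact pr_le_one
  simp only [hfree1, hfree2, hpr1, hpr2]
  rw [sum_const, nsmul_eq_mul]
  exact Ev_step h hh T L hLe p (fun c _ => ⟨hp0 c, hp1 c⟩)

lemma telescopeE {h : ℕ → ℝ} (hh : Conc h) {S U : Finset V} {v : V}
    (hUS : U ⊆ S) (hU : ∀ x ∈ U, ∀ y ∈ U, ¬ G.Adj x y) :
    ∀ R : Finset V, R ⊆ U →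
    ∑ f ∈ Col G c₀ Λ S, Ev h (∏ c ∈ Λ v, fac (pr G Λ S f U c)) ≤
    ∑ f ∈ Col G c₀ Λ S, Ev h (∏ c ∈ free Λ v R f, fac (pr G Λ S f (U \ R) c)) := by
  classical
  intro R
  induction R using Finset.induction_on with
  | empty =>
    intro _
    apply le_of_eq
    apply sum_congr rfl
    intro f _
    have : free Λ v ∅ f = Λ v := by
      unfold free; simp
    rw [this, sdiff_empty]
  | insert u R huR ih =>
    intro h
    have hRU : R ⊆ U := (subset_insert u R).trans h
    exact (ih hRU).trans (stepE hh hUS hU (h (mem_insert_self u R)) huR)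

/-- lower bound for the expectation of a concave function of the number of free colours -/
lemma moment_ge {h : ℕ → ℝ} (hh : Conc h) {S U : Finset V} {v : V}
    (hUS : U ⊆ S) (hU : ∀ x ∈ U, ∀ y ∈ U, ¬ G.Adj x y) :
    ∑ f ∈ Col G c₀ Λ S, Ev h (∏ c ∈ Λ v, fac (pr G Λ S f U c)) ≤
    ∑ f ∈ Col G c₀ Λ S, h (free Λ v U f).card := by
  refine le_trans (telescopeE hh hUS hU U (Subset.refl U)) (le_of_eq ?_)
  apply sum_congr rfl
  intro f _
  rw [sdiff_self]
  have : ∀ c, fac (pr G Λ S f (⊥ : Finset V) c) = Polynomial.X := by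
    intro c; unfold pr fac; simp
  simp only [this]
  rw [prod_const, Ev_X_pow]

lemma conc_neg_pos_part (t : ℕ) : Conc (fun s => -((t - s : ℕ) : ℝ)) := by
  intro k
  by_cases h1 : k + 2 ≤ t
  · have e1 : ((t - (k + 2) : ℕ) : ℝ) = t - (k + 2) := by
      rw [Nat.cast_sub h1]; push_cast; ring
    have e2 : ((t - (k + 1) : ℕ) : ℝ) = t - (k + 1) := by
      rw [Nat.cast_sub (by omega)]; push_cast; ring
    have e3 : ((t - k : ℕ) : ℝ) = t - k := by
      rw [Nat.cast_sub (by omega)]
    simp only [e1, e2, e3]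
    linarith
  · have e1 : t - (k + 2) = 0 := by omega
    have e2 : t - (k + 1) = 0 := by omega
    simp only [e1, e2]
    have : (0:ℝ) ≤ ((t - k : ℕ) : ℝ) := by positivity
    push_cast
    linarith

lemma conc_id : Conc (fun s => (s : ℝ)) := by
  intro k
  simp only
  push_cast
  linarith

/-- the Poisson lower bound for the potential -/
lemma pot_ge {A : ℝ} {m : ℕ} {B : ℕ → ℝ} (hA : 0 ≤ A) (hB : ∀ t, 0 ≤ B t) {S U : Finset V} {v : V}
    (hUS : U ⊆ S) (hU : ∀ x ∈ U, ∀ y ∈ U, ¬ G.Adj x y) :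
    ∑ f ∈ Col G c₀ Λ S, Hp A m B (∑ c ∈ Λ v, pr G Λ S f U c) ≤
    ∑ f ∈ Col G c₀ Λ S, pot A m B (free Λ v U f).card := by
  have h1 : ∑ f ∈ Col G c₀ Λ S, ∑ c ∈ Λ v, pr G Λ S f U c ≤
      ∑ f ∈ Col G c₀ Λ S, ((free Λ v U f).card : ℝ) := by
    refine le_trans (le_of_eq ?_) (moment_ge conc_id hUS hU)
    exact sum_congr rfl fun f _ => (Ev_id _ _).symm
  have h2 : ∀ t : ℕ, ∑ f ∈ Col G c₀ Λ S, ((t - (free Λ v U f).card : ℕ) : ℝ) ≤
      ∑ f ∈ Col G c₀ Λ S, Gp t (∑ c ∈ Λ v, pr G Λ S f U c) := by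
    intro t
    have h3 := moment_ge (G := G) (c₀ := c₀) (Λ := Λ) (v := v) (conc_neg_pos_part t) hUS hU
    have h4 : ∀ f, Ev (fun s => -((t - s : ℕ) : ℝ)) (∏ c ∈ Λ v, fac (pr G Λ S f U c)) =
        - Ev (fun s => ((t - s : ℕ) : ℝ)) (∏ c ∈ Λ v, fac (pr G Λ S f U c)) := by
      intro f
      have h5 := Ev_sub_fun (fun _ => 0) (fun s => ((t - s : ℕ) : ℝ))
        (∏ c ∈ Λ v, fac (pr G Λ S f U c))
      have h6 : Ev (fun _ => (0:ℝ)) (∏ c ∈ Λ v, fac (pr G Λ S f U c)) = 0 := by
        rw [Ev_apply]; simp [Polynomial.sum_def]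
      rw [h6] at h5
      simpa using h5
    simp only [h4] at h3
    rw [sum_neg_distrib, sum_neg_distrib] at h3
    have h7 : ∑ f ∈ Col G c₀ Λ S, Ev (fun s => ((t - s : ℕ) : ℝ))
        (∏ c ∈ Λ v, fac (pr G Λ S f U c)) ≤
        ∑ f ∈ Col G c₀ Λ S, Gp t (∑ c ∈ Λ v, pr G Λ S f U c) :=
      sum_le_sum fun f _ => Ev_pos_part_le _ _ (fun c _ => ⟨pr_nonneg, pr_le_one⟩) t
    linarith
  unfold Hp pot
  rw [sum_add_distrib, sum_add_distrib, sum_add_distrib, sum_add_distrib]
  have h3 : ∑ f ∈ Col G c₀ Λ S, A * ∑ c ∈ Λ v, pr G Λ S f U c ≤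
      ∑ f ∈ Col G c₀ Λ S, A * ((free Λ v U f).card : ℝ) := by
    rw [← mul_sum, ← mul_sum]
    exact mul_le_mul_of_nonneg_left h1 hA
  have h4 : ∑ f ∈ Col G c₀ Λ S, ∑ t ∈ range m, B t * ((t : ℝ) - Gp t (∑ c ∈ Λ v, pr G Λ S f U c)) ≤
      ∑ f ∈ Col G c₀ Λ S, ∑ t ∈ range m, B t * ((t : ℝ) - ((t - (free Λ v U f).card : ℕ) : ℝ)) := by
    rw [sum_comm, sum_comm (s := Col G c₀ Λ S) (t := range m)]
    apply sum_le_sum
    intro t _
    rw [← mul_sum, ← mul_sum]
    apply mul_le_mul_of_nonneg_left _ (hB t)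
    rw [sum_sub_distrib, sum_sub_distrib]
    linarith [h2 t]
  linarith

end

section MainInd

variable {V C : Type*} [Fintype V] [DecidableEq V] [DecidableEq C]
variable {G : SimpleGraph V} [DecidableRel G.Adj] {c₀ : C} {Λ : V → Finset C}

/-- the local inequality needed at a vertex -/
def LocalIneqH (V C : Type*) [DecidableEq C] (q d : ℕ) (h : ℕ → ℝ) (H : ℝ → ℝ) (β : ℝ) : Prop :=
  ∀ (U : Finset V) (L : V → Finset C) (T : Finset C), T.card = q → U.card ≤ d →
    (∀ u ∈ U, (L u).Nonempty ∧ (L u).card ≤ q) →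
    β * ∑ u ∈ U, h (L u).card / (L u).card ≤
      H (∑ c ∈ T, ∏ u ∈ U, (if c ∈ L u then 1 - 1 / ((L u).card : ℝ) else 1))

theorem main_indH {q d : ℕ} {A : ℝ} {m : ℕ} {B : ℕ → ℝ} {β : ℝ} (hA : 0 ≤ A) (hB : ∀ t, 0 ≤ B t)
    (hβ : 0 ≤ β) (hloc : LocalIneqH V C q d (pot A m B) (Hp A m B) β)
    (hG : ∀ x y z, G.Adj x y → G.Adj x z → ¬ G.Adj y z)
    (hdeg : ∀ v, (univ.filter (fun w => G.Adj v w)).card ≤ d + 1)
    (hΛ : ∀ v, (Λ v).card = q) :
    ∀ n : ℕ, ∀ S : Finset V, S.card = n → ∀ v, v ∉ S → ∀ U : Finset V, U ⊆ S →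
      (∀ u ∈ U, G.Adj v u) → U.card ≤ d →
      0 ≤ ∑ f ∈ Col G c₀ Λ S, pot A m B (free Λ v U f).card := by
  classical
  have hpoint : ∀ S : Finset V, ∀ v, ∀ U : Finset V, U ⊆ S → U.card ≤ d →
      ∀ f ∈ Col G c₀ Λ S, β * ∑ u ∈ U, pot A m B (avail G Λ S u f).card / (avail G Λ S u f).card ≤
        Hp A m B (∑ c ∈ Λ v, pr G Λ S f U c) := by
    intro S v U hUS hUd f hf
    unfold pr
    refine hloc U (fun u => avail G Λ S u f) (Λ v) (hΛ v) hUd ?_
    intro u hu
    rw [mem_Col] at hf
    refine ⟨⟨f u, mem_avail.2 ⟨hf.1 u (hUS hu), fun w hw hadj => ?_⟩⟩, ?_⟩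
    · exact (hf.2.2 u (hUS hu) w hw hadj).symm
    · rw [← hΛ u]
      exact card_le_card (filter_subset _ _)
  intro n
  induction n with
  | zero =>
    intro S hS v hv U hUS hUv hUd
    have hS' : S = ∅ := card_eq_zero.1 hS
    have hU' : U = ∅ := by rw [hS'] at hUS; exact subset_empty.1 hUS
    subst hU'
    refine le_trans ?_ (pot_ge (G := G) (c₀ := c₀) (Λ := Λ) (v := v) hA hB hUS (by simp))
    apply sum_nonneg
    intro f hf
    have h := hpoint S v ∅ hUS hUd f hf
    simpa using h
  | succ n ih =>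
    intro S hS v hv U hUS hUv hUd
    have hUind : ∀ x ∈ U, ∀ y ∈ U, ¬ G.Adj x y :=
      fun x hx y hy => hG v x y (hUv x hx) (hUv y hy)
    have hmom := pot_ge (G := G) (c₀ := c₀) (Λ := Λ) (v := v) (m := m) hA hB hUS hUind
    have h1 : ∑ f ∈ Col G c₀ Λ S, β * ∑ u ∈ U,
          pot A m B (avail G Λ S u f).card / (avail G Λ S u f).card ≤
        ∑ f ∈ Col G c₀ Λ S, Hp A m B (∑ c ∈ Λ v, pr G Λ S f U c) :=
      sum_le_sum fun f hf => hpoint S v U hUS hUd f hf
    refine le_trans ?_ (h1.trans hmom)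
    rw [← mul_sum, sum_comm]
    apply mul_nonneg hβ
    apply sum_nonneg
    intro u hu
    refine le_trans ?_ (sum_div_avail (G := G) (c₀ := c₀) (Λ := Λ) (hUS hu)
      (fun k => pot A m B k) (by simp [pot]))
    -- induction hypothesis for `S.erase u`
    have hcard : (S.erase u).card = n := by
      rw [card_erase_of_mem (hUS hu), hS]; rfl
    have hih := ih (S.erase u) hcard u (notMem_erase u S)
      ((S.erase u).filter (fun w => G.Adj u w)) (filter_subset _ _)
      (fun w hw => (mem_filter.1 hw).2) (by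
        have hsub : (S.erase u).filter (fun w => G.Adj u w) ⊆
            (univ.filter (fun w => G.Adj u w)).erase v := by
          intro w hw
          rw [mem_filter] at hw
          rw [mem_erase, mem_filter]
          refine ⟨?_, mem_univ _, hw.2⟩
          rintro rfl
          exact hv (mem_erase.1 hw.1).2
        have hvmem : v ∈ univ.filter (fun w => G.Adj u w) := by
          rw [mem_filter]; exact ⟨mem_univ _, (hUv u hu).symm⟩
        have := card_le_card hsub
        rw [card_erase_of_mem hvmem] at this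
        have := hdeg u
        omega)
    refine le_trans hih (le_of_eq ?_)
    apply sum_congr rfl
    intro g _
    have : free Λ u ((S.erase u).filter (fun w => G.Adj u w)) g = avail G Λ (S.erase u) u g := by
      ext x
      rw [mem_free, mem_avail]
      refine and_congr_right fun _ => ⟨fun h w hw hadj => ?_, fun h w hw => ?_⟩
      · exact h w (mem_filter.2 ⟨hw, hadj⟩)
      · exact h w (mem_filter.1 hw).1 (mem_filter.1 hw).2
    rw [this]

theorem col_nonemptyH {q d : ℕ} {A : ℝ} {m : ℕ} {B : ℕ → ℝ} {β : ℝ} (hA : 0 ≤ A)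
    (hB : ∀ t, 0 ≤ B t) (hβ : 0 ≤ β) (h1 : pot A m B 1 < 0)
    (hloc : LocalIneqH V C q d (pot A m B) (Hp A m B) β)
    (hG : ∀ x y z, G.Adj x y → G.Adj x z → ¬ G.Adj y z)
    (hdeg : ∀ v, (univ.filter (fun w => G.Adj v w)).card ≤ d + 1)
    (hΛ : ∀ v, (Λ v).card = q) (S : Finset V) : (Col G c₀ Λ S).Nonempty := by
  classical
  induction S using Finset.induction_on with
  | empty =>
    refine ⟨fun _ => c₀, ?_⟩
    rw [mem_Col]
    refine ⟨by simp, by simp, by simp⟩
  | insert v S hv ih =>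
    by_contra hne
    -- no colouring of S extends to v
    have hnone : ∀ f ∈ Col G c₀ Λ S, avail G Λ S v f = ∅ := by
      intro f hf
      by_contra hav
      rw [← ne_eq, ← nonempty_iff_ne_empty] at hav
      obtain ⟨c, hc⟩ := hav
      apply hne
      refine ⟨Function.update f v c, ?_⟩
      rw [mem_Col] at hf ⊢
      rw [mem_avail] at hc
      obtain ⟨h1, h2, h3⟩ := hf
      refine ⟨fun w hw => ?_, fun w hw => ?_, fun x hx y hy hadj => ?_⟩
      · by_cases hwv : w = v
        · subst hwv; simpa using hc.1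
        · rw [Function.update_of_ne hwv]
          exact h1 w ((mem_insert.1 hw).resolve_left hwv)
      · have hwv : w ≠ v := by rintro rfl; exact hw (mem_insert_self _ _)
        rw [Function.update_of_ne hwv]
        exact h2 w (fun h => hw (mem_insert_of_mem h))
      · by_cases hxv : x = v
        · subst hxv
          have hyx : y ≠ x := hadj.ne'
          rw [Function.update_self, Function.update_of_ne hyx]
          exact (hc.2 y ((mem_insert.1 hy).resolve_left hyx) hadj).symm
        · by_cases hyv : y = v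
          · subst hyv
            rw [Function.update_self, Function.update_of_ne hxv]
            exact hc.2 x ((mem_insert.1 hx).resolve_left hxv) hadj.symm
          · rw [Function.update_of_ne hxv, Function.update_of_ne hyv]
            exact h3 x ((mem_insert.1 hx).resolve_left hxv) y ((mem_insert.1 hy).resolve_left hyv)
              hadj
    -- choose at most d neighbours, missing at most one
    set N := S.filter (fun w => G.Adj v w) with hN
    have hNd : N.card ≤ d + 1 := by
      refine (card_le_card ?_).trans (hdeg v)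
      intro w hw
      rw [hN, mem_filter] at hw
      rw [mem_filter]; exact ⟨mem_univ _, hw.2⟩
    obtain ⟨U, hUN, hUd, hUmiss⟩ : ∃ U ⊆ N, U.card ≤ d ∧ ∃ u₀, ∀ w ∈ N, w ∉ U → w = u₀ := by
      by_cases hcase : N.card ≤ d
      · exact ⟨N, Subset.refl _, hcase, v, fun w hw hw' => absurd hw hw'⟩
      · have hNe : N.Nonempty := by
          rw [← card_pos]; omega
        obtain ⟨u₀, hu₀⟩ := hNe
        refine ⟨N.erase u₀, erase_subset _ _, ?_, u₀, ?_⟩
        · rw [card_erase_of_mem hu₀]; omega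
        · intro w hw hw'
          by_contra h
          exact hw' (mem_erase.2 ⟨h, hw⟩)
    obtain ⟨u₀, hu₀⟩ := hUmiss
    have hI := main_indH (G := G) (c₀ := c₀) (Λ := Λ) hA hB hβ hloc hG hdeg
      hΛ S.card S rfl v hv U (hUN.trans (filter_subset _ _))
      (fun u hu => (mem_filter.1 (hUN hu)).2) hUd
    have hneg : ∑ f ∈ Col G c₀ Λ S, pot A m B (free Λ v U f).card < 0 := by
      apply sum_neg ?_ ih
      intro f hf
      have hcard : (free Λ v U f).card ≤ 1 := by
        rw [card_le_one]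
        have hx : ∀ x ∈ free Λ v U f, x = f u₀ := by
          intro x hx
          rw [mem_free] at hx
          by_contra hxne
          have : x ∈ avail G Λ S v f := by
            rw [mem_avail]
            refine ⟨hx.1, fun w hw hadj => ?_⟩
            by_cases hwU : w ∈ U
            · exact hx.2 w hwU
            · have := hu₀ w (mem_filter.2 ⟨hw, hadj⟩) hwU
              subst this
              exact fun h => hxne h.symm
          rw [hnone f hf] at this
          exact notMem_empty _ this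
        intro a ha b hb
        rw [hx a ha, hx b hb]
      interval_cases h : (free Λ v U f).card
      · simp [pot]
      · exact h1
    linarith

end MainInd

end Pool.Agent.MP_7aba48_co_CP
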