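import Mathlib
import Pool.Agent.Lib.MP_7aba48_co.Local
import Pool.Agent.Lib.MP_7aba48_co_CP.Tab
import Pool.Agent.Lib.MP_7aba48_co_CP.Ind

set_option autoImplicit false

namespace Pool.Agent.MP_7aba48_co_CP

open Finset

/-- computable integer sums -/
def sumZ (f : ℕ → ℤ) : ℕ → ℤ
  | 0 => 0
  | n + 1 => sumZ f n + f n

lemma sumZ_eq (f : ℕ → ℤ) (n : ℕ) : sumZ f n = ∑ i ∈ range n, f i := by
  induction n with
  | zero => rfl
  | succ n ih => rw [sum_range_succ, ← ih]; rfl

/-- a certificate: all numbers except `q`, `d` are scaled by `10 ^ 6` -/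
structure CP where
  q : ℕ
  d : ℕ
  A : ℕ
  B : List ℕ
  b : ℕ
  y : List ℤ
  cells : List (ℤ × ℕ × ℤ × ℤ)

/-- `10 ^ 6` times the potential -/
def hI (A : ℕ) (B : List ℕ) (l : ℕ) : ℤ :=
  -1000000 + A * l + sumZ (fun t => B.getD t 0 * ((t : ℤ) - ((t - l : ℕ) : ℤ))) 13

/-- `5 * 10 ^ 14` times a lower bound for its Poisson transform at `i / 5` -/
def HI (A : ℕ) (B : List ℕ) (i : ℕ) : ℤ :=
  -500000000000000 + A * i * 100000000 +
    sumZ (fun t => 5 * B.getD t 0 * ((t : ℤ) * 100000000 - (G0.getD i []).getD t 0)) 13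

/-- `10 ^ 4 * K l` -/
def KI (l : ℕ) : ℤ := [0, 0, 13863, 12164, 11508, 11158, 10940, 10791, 10683, 10601, 10537,
  10485].getD l 10460

/-- checking the cells one after the other -/
def chkCells (q d A : ℕ) (B : List ℕ) (y : List ℤ) : ℕ → ℤ → List (ℤ × ℕ × ℤ × ℤ) → Bool
  | _, η, [] => decide (0 ≤ η) && (List.range 12).all (fun j => decide (y.getD (j + 1) 0 ≤ η))
  | i, η, (η', k, a, R) :: cs =>
    decide (η' * 500000000 ≤ HI A B (i + 1)) && decide (η ≤ η') && decide (k ≤ 400) &&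
    decide (R * 800000000000 ≤ (η - (η' - η) * i) * 800000000000 +
      5 * (η' - η) * E0.getD k 0 * (80 + k) * q) &&
    decide (5 * d * (η' - η) * E0.getD k 0 ≤ a * 10000000000) && decide (0 ≤ R) &&
    decide (y.getD 1 0 * 80 + a * (80 + k) ≤ R * 80) &&
    (List.range 11).all (fun j => decide (y.getD (j + 2) 0 * 10000 + a * KI (j + 2) ≤ R * 10000)) &&
    decide (i + 1 ≤ 50) && chkCells q d A B y (i + 1) η' cs

/-- the whole check -/
def chk (c : CP) : Bool :=
  decide (0 < c.d) && decide (c.q ≤ 200) && decide (hI c.A c.B 1 < 0) &&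
  (List.range c.q).all (fun j => decide ((c.d : ℤ) * c.b * hI c.A c.B (j + 1) ≤
    c.y.getD (min (j + 1) 12) 0 * ((j + 1 : ℕ) : ℤ) * 1000000)) &&
  chkCells c.q c.d c.A c.B c.y 0 (-1000000) c.cells

section sound

/-- real coefficients -/
noncomputable def Ar (A : ℕ) : ℝ := (A : ℝ) / 1000000

noncomputable def Br (B : List ℕ) (t : ℕ) : ℝ := (B.getD t 0 : ℝ) / 1000000

lemma Br_nonneg (B : List ℕ) (t : ℕ) : 0 ≤ Br B t := by unfold Br; positivity

lemma Ar_nonneg (A : ℕ) : 0 ≤ Ar A := by unfold Ar; positivity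

lemma pot_hI (A : ℕ) (B : List ℕ) (l : ℕ) :
    pot (Ar A) 13 (Br B) l = (hI A B l : ℝ) / 1000000 := by
  unfold hI pot Ar Br
  rw [sumZ_eq]
  push_cast
  rw [eq_div_iff (by norm_num), add_mul, add_mul, sum_mul]
  congr 1
  · ring
  · apply sum_congr rfl
    intro t _
    ring

lemma HI_le (A : ℕ) (B : List ℕ) (i : ℕ) (hi : i < 51) :
    (HI A B i : ℝ) / 500000000000000 ≤ Hp (Ar A) 13 (Br B) ((i : ℝ) / 5) := by
  unfold HI Hp Ar Br
  rw [sumZ_eq]
  push_cast
  rw [div_le_iff₀ (by norm_num), add_mul, add_mul, sum_mul]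
  apply add_le_add
  · apply le_of_eq; ring
  · apply sum_le_sum
    intro t ht
    have h := G0_spec i hi t (mem_range.1 ht)
    rw [le_div_iff₀ (by norm_num)] at h
    have hb : (0:ℝ) ≤ (B.getD t 0 : ℝ) := by positivity
    have h2 := mul_le_mul_of_nonneg_left h hb
    nlinarith [h2]

lemma K_KI {l : ℕ} (hl : 2 ≤ l) : Pool.Agent.MP_7aba48_co.K l = (KI l : ℝ) / 10000 := by
  by_cases h12 : 12 ≤ l
  · rw [Pool.Agent.MP_7aba48_co.K_tail h12]
    have : KI l = 10460 := by
      unfold KI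
      rw [List.getD_eq_default]
      simpa using h12
    rw [this]; norm_num
  · interval_cases l <;> simp [Pool.Agent.MP_7aba48_co.K, KI] <;> norm_num

open Pool.Agent.MP_7aba48_co in
/-- one step: linear bound in a cell -/
lemma cell_bound {V : Type*} (U : Finset V) (l : V → ℕ) (q d : ℕ) (hd : 0 < d) (hU : U.card ≤ d)
    (A : ℕ) (B : List ℕ) (β : ℝ) (x0 x1 η η' s E R : ℝ) (hx0 : 0 ≤ x0) (hx : x0 < x1)
    (hη : η ≤ Hp (Ar A) 13 (Br B) x0) (hη' : η' ≤ Hp (Ar A) 13 (Br B) x1) (hηη : η ≤ η')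
    (hs : 0 ≤ s) (hE : 0 < E) (hE' : E ≤ Real.exp (-s))
    (hR : R ≤ η - (η' - η) / (x1 - x0) * x0 + (η' - η) / (x1 - x0) * (E * ((1 + s) * q)))
    (hR0 : 0 ≤ R)
    (hl : ∀ u ∈ U, d * (β * (pot (Ar A) 13 (Br B) (l u) / l u) +
      (η' - η) / (x1 - x0) * (E * cost s (l u))) ≤ R)
    (μ : ℝ) (hμ1 : x0 ≤ μ) (hμ2 : μ ≤ x1)
    (hμ : ∀ s E : ℝ, 0 ≤ s → 0 < E → E ≤ Real.exp (-s) →
      E * ((1 + s) * q - ∑ u ∈ U, cost s (l u)) ≤ μ) :
    β * ∑ u ∈ U, pot (Ar A) 13 (Br B) (l u) / l u ≤ Hp (Ar A) 13 (Br B) μ := by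
  have h1 := Hp_chord (A := Ar A) (m := 13) (B := Br B) (Br_nonneg B) hx0 hx hη hη' hμ1 hμ2
  refine le_trans ?_ h1
  set c := (η' - η) / (x1 - x0) with hc
  have hc0 : 0 ≤ c := div_nonneg (by linarith) (by linarith)
  have h2 := mul_le_mul_of_nonneg_left (hμ s E hs hE hE') hc0
  have hdr : (0:ℝ) < d := by exact_mod_cast hd
  have h3 : ∑ u ∈ U, (β * (pot (Ar A) 13 (Br B) (l u) / l u) + c * (E * cost s (l u))) ≤ R := by
    have h4 : ∀ u ∈ U, β * (pot (Ar A) 13 (Br B) (l u) / l u) + c * (E * cost s (l u)) ≤ R / d := by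
      intro u hu
      rw [le_div_iff₀ hdr, mul_comm]
      exact hl u hu
    refine (sum_le_sum h4).trans ?_
    rw [sum_const, nsmul_eq_mul]
    have h5 : (U.card : ℝ) ≤ d := by exact_mod_cast hU
    have h6 : 0 ≤ R / d := div_nonneg hR0 hdr.le
    calc (U.card : ℝ) * (R / d) ≤ d * (R / d) := mul_le_mul_of_nonneg_right h5 h6
      _ = R := by field_simp
  rw [sum_add_distrib, ← mul_sum, ← mul_sum, ← mul_sum] at h3
  nlinarith [h2, h3, hR]

open Pool.Agent.MP_7aba48_co in
lemma chkCells_sound {V : Type*} (U : Finset V) (l : V → ℕ) (q d : ℕ) (hd : 0 < d)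
    (hU : U.card ≤ d) (hlU : ∀ u ∈ U, 1 ≤ l u) (A : ℕ) (B : List ℕ) (y : List ℤ) (β : ℝ)
    (hy : ∀ u ∈ U, d * (β * (pot (Ar A) 13 (Br B) (l u) / l u)) ≤
      ((y.getD (min (l u) 12) 0 : ℤ) : ℝ) / 1000000)
    (μ : ℝ) (hμ : ∀ s E : ℝ, 0 ≤ s → 0 < E → E ≤ Real.exp (-s) →
      E * ((1 + s) * q - ∑ u ∈ U, cost s (l u)) ≤ μ) :
    ∀ (cs : List (ℤ × ℕ × ℤ × ℤ)) (i : ℕ) (η : ℤ), chkCells q d A B y i η cs = true →
      (η : ℝ) / 1000000 ≤ Hp (Ar A) 13 (Br B) ((i : ℝ) / 5) → (i : ℝ) / 5 ≤ μ →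
      β * ∑ u ∈ U, pot (Ar A) 13 (Br B) (l u) / l u ≤ Hp (Ar A) 13 (Br B) μ := by
  intro cs
  have hdr : (0:ℝ) < d := by exact_mod_cast hd
  induction cs with
  | nil =>
    intro i η hc hη hi
    simp only [chkCells, Bool.and_eq_true, decide_eq_true_eq, List.all_eq_true, List.mem_range]
      at hc
    obtain ⟨h0, hall⟩ := hc
    have h0r : (0:ℝ) ≤ (η : ℝ) / 1000000 := by
      have : (0:ℝ) ≤ (η : ℝ) := by exact_mod_cast h0
      positivity
    have h1 : ∀ u ∈ U, β * (pot (Ar A) 13 (Br B) (l u) / l u) ≤ (η : ℝ) / 1000000 / d := by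
      intro u hu
      rw [le_div_iff₀ hdr, mul_comm]
      refine (hy u hu).trans ?_
      have hlu := hlU u hu
      have h2 := hall (min (l u) 12 - 1) (by omega)
      have h3 : min (l u) 12 - 1 + 1 = min (l u) 12 := by omega
      rw [h3] at h2
      have h4 : ((y.getD (min (l u) 12) 0 : ℤ) : ℝ) ≤ (η : ℝ) := by exact_mod_cast h2
      gcongr
    have h5 : β * ∑ u ∈ U, pot (Ar A) 13 (Br B) (l u) / l u ≤ (η : ℝ) / 1000000 := by
      rw [mul_sum]
      refine (sum_le_sum h1).trans ?_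
      rw [sum_const, nsmul_eq_mul]
      have h5 : (U.card : ℝ) ≤ d := by exact_mod_cast hU
      have h6 : 0 ≤ (η : ℝ) / 1000000 / d := div_nonneg h0r hdr.le
      calc (U.card : ℝ) * ((η : ℝ) / 1000000 / d) ≤ d * ((η : ℝ) / 1000000 / d) :=
            mul_le_mul_of_nonneg_right h5 h6
        _ = (η : ℝ) / 1000000 := by field_simp
    refine h5.trans (hη.trans ?_)
    exact Hp_mono (Ar_nonneg A) (Br_nonneg B) (by positivity) hi
  | cons c cs ih =>
    intro i η hc hη hi
    obtain ⟨η', k, a, R⟩ := c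
    simp only [chkCells, Bool.and_eq_true, decide_eq_true_eq, List.all_eq_true, List.mem_range]
      at hc
    obtain ⟨⟨⟨⟨⟨⟨⟨⟨⟨h1, h2⟩, h3⟩, h4⟩, h5⟩, h6⟩, h7⟩, h8⟩, h9⟩, h10⟩ := hc
    have hη' : (η' : ℝ) / 1000000 ≤ Hp (Ar A) 13 (Br B) (((i + 1 : ℕ) : ℝ) / 5) := by
      refine le_trans ?_ (HI_le A B (i + 1) (by omega))
      rw [div_le_div_iff₀ (by norm_num) (by norm_num)]
      have : (η' : ℝ) * 500000000 ≤ (HI A B (i + 1) : ℝ) := by exact_mod_cast h1
      linarith
    by_cases hcase : (((i + 1 : ℕ) : ℝ) / 5) ≤ μ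
    · exact ih (i + 1) η' h10 hη' hcase
    · push Not at hcase
      obtain ⟨hE0, hE⟩ := E0_spec k h3
      have hE0r : (0:ℝ) < (E0.getD k 0 : ℝ) := by exact_mod_cast hE0
      have hηη : (η : ℝ) ≤ (η' : ℝ) := by exact_mod_cast h2
      have hdiff : (((i + 1 : ℕ) : ℝ) / 5) - (i : ℝ) / 5 = 1 / 5 := by push_cast; ring
      refine cell_bound U l q d hd hU A B β ((i : ℝ) / 5) (((i + 1 : ℕ) : ℝ) / 5)
        ((η : ℝ) / 1000000) ((η' : ℝ) / 1000000) ((k : ℝ) / 80) ((E0.getD k 0 : ℝ) / 10 ^ 10)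
        ((R : ℝ) / 1000000) (by positivity) (by linarith) hη hη' ?_ (by positivity)
        (by positivity) hE ?_ ?_ ?_ μ hi hcase.le hμ
      · gcongr
      · rw [hdiff]
        have h4r : (R : ℝ) * 800000000000 ≤ (η - (η' - η) * i) * 800000000000 +
            5 * (η' - η) * (E0.getD k 0 : ℝ) * (80 + k) * q := by exact_mod_cast h4
        have e1 : (η : ℝ) / 1000000 - ((η' : ℝ) / 1000000 - η / 1000000) / (1 / 5) * (i / 5) +
            ((η' : ℝ) / 1000000 - η / 1000000) / (1 / 5) *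
              ((E0.getD k 0 : ℝ) / 10 ^ 10 * ((1 + k / 80) * q)) =
            ((η - (η' - η) * i) * 800000000000 +
            5 * (η' - η) * (E0.getD k 0 : ℝ) * (80 + k) * q) / 800000000000 / 1000000 := by
          ring
        rw [e1]
        rw [div_le_div_iff_of_pos_right (by norm_num), le_div_iff₀ (by norm_num)]
        exact h4r
      · have : (0:ℝ) ≤ (R : ℝ) := by exact_mod_cast h6
        positivity
      · intro u hu
        rw [hdiff]
        have hlu := hlU u hu
        have hyu := hy u hu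
        have h5r : 5 * (d : ℝ) * (η' - η) * (E0.getD k 0 : ℝ) ≤ a * 10000000000 := by
          exact_mod_cast h5
        have hcost0 := cost_nonneg (s := (k : ℝ) / 80) (by positivity) (l u)
        have key : (d : ℝ) * (((η' : ℝ) / 1000000 - η / 1000000) / (1 / 5) *
            ((E0.getD k 0 : ℝ) / 10 ^ 10 * cost ((k : ℝ) / 80) (l u))) ≤
            (a : ℝ) / 1000000 * cost ((k : ℝ) / 80) (l u) := by
          have e2 : (d : ℝ) * (((η' : ℝ) / 1000000 - η / 1000000) / (1 / 5) *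
            ((E0.getD k 0 : ℝ) / 10 ^ 10 * cost ((k : ℝ) / 80) (l u))) =
            (5 * (d : ℝ) * (η' - η) * (E0.getD k 0 : ℝ)) / 10000000000 / 1000000 *
              cost ((k : ℝ) / 80) (l u) := by ring
          rw [e2]
          apply mul_le_mul_of_nonneg_right _ hcost0
          rw [div_le_div_iff_of_pos_right (by norm_num), div_le_iff₀ (by norm_num)]
          exact h5r
        rw [mul_add]
        have hfin : ((y.getD (min (l u) 12) 0 : ℤ) : ℝ) / 1000000 +
            (a : ℝ) / 1000000 * cost ((k : ℝ) / 80) (l u) ≤ (R : ℝ) / 1000000 := by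
          by_cases hl1 : l u = 1
          · rw [hl1]
            have e3 : min 1 12 = 1 := by norm_num
            rw [e3]
            unfold cost
            rw [if_pos rfl]
            have h7r : ((y.getD 1 0 : ℤ) : ℝ) * 80 + a * (80 + k) ≤ R * 80 := by
              exact_mod_cast h7
            have e4 : (a : ℝ) / 1000000 * (1 + k / 80) = (a * (80 + k)) / 80 / 1000000 := by ring
            rw [e4, ← add_div, div_le_div_iff_of_pos_right (by norm_num)]
            linarith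
          · have hl2 : 2 ≤ l u := by omega
            have h8u := h8 (min (l u) 12 - 2) (by omega)
            have e5 : min (l u) 12 - 2 + 2 = min (l u) 12 := by omega
            rw [e5] at h8u
            have hK : KI (min (l u) 12) = KI (l u) := by
              by_cases h12 : l u ≤ 12
              · rw [min_eq_left h12]
              · rw [min_eq_right (by omega)]
                unfold KI
                rw [List.getD_eq_default (n := l u)]
                · rfl
                · simp; omega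
            rw [hK] at h8u
            have h8r : ((y.getD (min (l u) 12) 0 : ℤ) : ℝ) * 10000 + a * (KI (l u) : ℝ) ≤
                R * 10000 := by exact_mod_cast h8u
            have hcost : cost ((k : ℝ) / 80) (l u) = (KI (l u) : ℝ) / 10000 := by
              unfold cost
              rw [if_neg hl1, K_KI hl2]
            rw [hcost]
            have e6 : (a : ℝ) / 1000000 * ((KI (l u) : ℝ) / 10000) =
                (a * (KI (l u) : ℝ)) / 10000 / 1000000 := by ring
            rw [e6, ← add_div, div_le_div_iff_of_pos_right (by norm_num)]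
            linarith
        linarith

end sound

end Pool.Agent.MP_7aba48_co_CP
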