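import Mathlib
import Pool.Agent.Lib.MP_7aba48_co_CP.Cert

set_option autoImplicit false

namespace Pool.Agent.MP_7aba48_co_CP

open Finset Pool.Agent.MP_7aba48_co

/-- the linear lower bounds for the expected number of free colours -/
lemma mu_ge {V C : Type*} [DecidableEq V] [DecidableEq C] {q : ℕ} (U : Finset V)
    (L : V → Finset C) (T : Finset C) (hT : T.card = q) (hL : ∀ u ∈ U, (L u).Nonempty)
    (s E : ℝ) (hs : 0 ≤ s) (hE : 0 < E) (hE' : E ≤ Real.exp (-s)) :
    E * ((1 + s) * q - ∑ u ∈ U, cost s (L u).card) ≤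
      ∑ c ∈ T, ∏ u ∈ U, (if c ∈ L u then 1 - 1 / ((L u).card : ℝ) else 1) := by
  set l : V → ℕ := fun u => (L u).card with hl
  have hl1 : ∀ u ∈ U, 1 ≤ l u := fun u hu => (hL u hu).card_pos
  have h1 : ∀ c ∈ T, E * (1 + s - ∑ u ∈ U.filter (fun u => c ∈ L u), cost s (l u) / l u) ≤
      ∏ u ∈ U, (if c ∈ L u then 1 - 1 / ((L u).card : ℝ) else 1) := by
    intro c _
    rw [← prod_filter]
    exact prod_ge _ l (fun u hu => hl1 u (mem_filter.1 hu).1) s E hs hE hE'
  refine le_trans ?_ (sum_le_sum h1)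
  rw [← mul_sum]
  apply mul_le_mul_of_nonneg_left _ hE.le
  rw [sum_sub_distrib, sum_const, nsmul_eq_mul, hT]
  have h2 : ∑ c ∈ T, ∑ u ∈ U.filter (fun u => c ∈ L u), cost s (l u) / (l u : ℝ) ≤
      ∑ u ∈ U, cost s (l u) := by
    have h3 : ∑ c ∈ T, ∑ u ∈ U.filter (fun u => c ∈ L u), cost s (l u) / (l u : ℝ) =
        ∑ u ∈ U, ∑ c ∈ T, if c ∈ L u then cost s (l u) / (l u : ℝ) else 0 := by
      rw [sum_comm]
      apply sum_congr rfl
      intro c _
      rw [sum_filter]
    rw [h3]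
    apply sum_le_sum
    intro u hu
    rw [← sum_filter, sum_const, nsmul_eq_mul]
    have hlu : (0:ℝ) < l u := by exact_mod_cast hl1 u hu
    have h4 : ((T.filter (fun c => c ∈ L u)).card : ℝ) ≤ l u := by
      have : (T.filter (fun c => c ∈ L u)).card ≤ (L u).card :=
        card_le_card fun c hc => (mem_filter.1 hc).2
      exact_mod_cast this
    calc ((T.filter (fun c => c ∈ L u)).card : ℝ) * (cost s (l u) / l u)
        ≤ l u * (cost s (l u) / l u) :=
          mul_le_mul_of_nonneg_right h4 (div_nonneg (cost_nonneg hs _) hlu.le)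
      _ = cost s (l u) := by field_simp
  nlinarith [h2]

lemma localIneqH (V C : Type*) [DecidableEq V] [DecidableEq C] (c : CP) (hc : chk c = true) :
    LocalIneqH V C c.q c.d (pot (Ar c.A) 13 (Br c.B)) (Hp (Ar c.A) 13 (Br c.B))
      ((c.b : ℝ) / 1000000) := by
  simp only [chk, Bool.and_eq_true, decide_eq_true_eq, List.all_eq_true, List.mem_range] at hc
  obtain ⟨⟨⟨⟨hd, hq⟩, h1⟩, hy⟩, hcells⟩ := hc
  intro U L T hT hU hL
  have hdr : (0:ℝ) < c.d := by exact_mod_cast hd
  have hμ0 : 0 ≤ ∑ x ∈ T, ∏ u ∈ U, (if x ∈ L u then 1 - 1 / ((L u).card : ℝ) else 1) := by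
    apply sum_nonneg
    intro x _
    apply prod_nonneg
    intro u hu
    split_ifs with h
    · have : (1:ℝ) ≤ (L u).card := by exact_mod_cast card_pos.2 ⟨x, h⟩
      have h2 : 1 / ((L u).card : ℝ) ≤ 1 := by
        rw [div_le_one (by linarith)]; exact this
      linarith
    · norm_num
  refine chkCells_sound U (fun u => (L u).card) c.q c.d hd hU
    (fun u hu => (hL u hu).1.card_pos) c.A c.B c.y ((c.b : ℝ) / 1000000) ?_ _
    (fun s E hs hE hE' => mu_ge U L T hT (fun u hu => (hL u hu).1) s E hs hE hE')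
    c.cells 0 (-1000000) hcells ?_ (by simpa using hμ0)
  · intro u hu
    have hl1 : 1 ≤ (L u).card := (hL u hu).1.card_pos
    have hlq := (hL u hu).2
    have h2 := hy ((L u).card - 1) (by omega)
    have e1 : (L u).card - 1 + 1 = (L u).card := by omega
    rw [e1] at h2
    rw [pot_hI]
    have hlr : (0:ℝ) < ((L u).card : ℝ) := by exact_mod_cast hl1
    have h2r : (c.d : ℝ) * c.b * (hI c.A c.B (L u).card : ℝ) ≤
        ((c.y.getD (min (L u).card 12) 0 : ℤ) : ℝ) * ((L u).card : ℝ) * 1000000 := by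
      exact_mod_cast h2
    have e2 : (c.d : ℝ) * ((c.b : ℝ) / 1000000 * ((hI c.A c.B (L u).card : ℝ) / 1000000 /
        ((L u).card : ℝ))) = (c.d : ℝ) * c.b * (hI c.A c.B (L u).card : ℝ) /
          ((L u).card * 1000000) / 1000000 := by
      field_simp
    rw [e2, div_le_div_iff_of_pos_right (by norm_num), div_le_iff₀ (by positivity)]
    linarith
  · have : Hp (Ar c.A) 13 (Br c.B) ((0 : ℕ) / 5 : ℝ) = -1 := by
      unfold Hp
      simp [Gp_zero_right]
    rw [this]
    norm_num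

/-- choosability from a certificate -/
theorem choosable_of_chk (c : CP) (hc : chk c = true) {V : Type*} [Fintype V]
    (G : SimpleGraph V) (hG : G.CliqueFree 3) (hdeg : ∀ v, (G.neighborSet v).ncard ≤ c.d + 1)
    (Λ : V → Finset ℕ) (hΛ : ∀ v, c.q ≤ (Λ v).card) :
    ∃ f : V → ℕ, (∀ v, f v ∈ Λ v) ∧ ∀ u v, G.Adj u v → f u ≠ f v := by
  classical
  choose Λ' hsub hcard using fun v => exists_subset_card_eq (hΛ v)
  have hdeg' : ∀ v, (univ.filter (fun w => G.Adj v w)).card ≤ c.d + 1 := by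
    intro v
    have h1 := hdeg v
    have h2 : (G.neighborSet v).ncard = (univ.filter (fun w => G.Adj v w)).card := by
      rw [← Set.ncard_coe_finset]
      congr 1
      ext w; simp
    omega
  have hG' : ∀ x y z, G.Adj x y → G.Adj x z → ¬ G.Adj y z := by
    intro x y z hxy hxz hyz
    refine hG {x, y, z} ?_
    rw [SimpleGraph.is3Clique_triple_iff]
    exact ⟨hxy, hxz, hyz⟩
  have hloc := localIneqH V ℕ c hc
  have h1 : pot (Ar c.A) 13 (Br c.B) 1 < 0 := by
    simp only [chk, Bool.and_eq_true, decide_eq_true_eq] at hc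
    rw [pot_hI]
    have : (hI c.A c.B 1 : ℝ) < 0 := by exact_mod_cast hc.1.1.2
    apply div_neg_of_neg_of_pos this
    norm_num
  have hne := col_nonemptyH (G := G) (c₀ := (0:ℕ)) (Λ := Λ') (Ar_nonneg c.A) (Br_nonneg c.B)
    (by positivity) h1 hloc hG' hdeg' hcard univ
  obtain ⟨f, hf⟩ := hne
  rw [mem_Col] at hf
  exact ⟨f, fun v => hsub v (hf.1 v (mem_univ v)), fun u v h => hf.2.2 u (mem_univ u) v (mem_univ v) h⟩

end Pool.Agent.MP_7aba48_co_CP
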