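import Mathlib
import Pool.Agent.Lib.MP_7aba48_co_CP.Data

set_option autoImplicit false

namespace Pool.Agent.MP_7aba48_co_CP

open Finset Pool.Agent.MP_7aba48_co

/-- greedy list colouring -/
theorem greedy {V : Type*} [Fintype V] (G : SimpleGraph V) (Δ : ℕ)
    (hdeg : ∀ v, (G.neighborSet v).ncard ≤ Δ)
    (Λ : V → Finset ℕ) (hΛ : ∀ v, Δ + 1 ≤ (Λ v).card) :
    ∃ f : V → ℕ, (∀ v, f v ∈ Λ v) ∧ ∀ u v, G.Adj u v → f u ≠ f v := by
  classical
  have hdeg' : ∀ v, (univ.filter (fun w => G.Adj v w)).card ≤ Δ := by
    intro v
    have h1 := hdeg v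
    have h2 : (G.neighborSet v).ncard = (univ.filter (fun w => G.Adj v w)).card := by
      rw [← Set.ncard_coe_finset]
      congr 1
      ext w; simp
    omega
  have hne : ∀ S : Finset V, (Col G (0:ℕ) Λ S).Nonempty := by
    intro S
    induction S using Finset.induction_on with
    | empty =>
      refine ⟨fun _ => 0, ?_⟩
      rw [mem_Col]
      refine ⟨by simp, by simp, by simp⟩
    | insert v S hv ih =>
      obtain ⟨f, hf⟩ := ih
      have hex : ∃ c ∈ Λ v, c ∉ (univ.filter (fun w => G.Adj v w)).image f := by
        by_contra hcon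
        push Not at hcon
        have h1 : (Λ v).card ≤ ((univ.filter (fun w => G.Adj v w)).image f).card :=
          card_le_card hcon
        have h2 := card_image_le (s := univ.filter (fun w => G.Adj v w)) (f := f)
        have h3 := hdeg' v
        have h4 := hΛ v
        omega
      obtain ⟨c, hc, hc'⟩ := hex
      have hcf : ∀ w, G.Adj v w → f w ≠ c := by
        intro w hw h
        apply hc'
        rw [mem_image]
        exact ⟨w, by simpa using hw, h⟩
      refine ⟨Function.update f v c, ?_⟩
      rw [mem_Col] at hf ⊢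
      obtain ⟨h1, h2, h3⟩ := hf
      refine ⟨fun w hw => ?_, fun w hw => ?_, fun x hx y hy hadj => ?_⟩
      · by_cases hwv : w = v
        · subst hwv; simpa using hc
        · rw [Function.update_of_ne hwv]
          exact h1 w ((mem_insert.1 hw).resolve_left hwv)
      · have hwv : w ≠ v := by rintro rfl; exact hw (mem_insert_self _ _)
        rw [Function.update_of_ne hwv]
        exact h2 w (fun h => hw (mem_insert_of_mem h))
      · by_cases hxv : x = v
        · subst hxv
          have hyx : y ≠ x := hadj.ne'
          rw [Function.update_self, Function.update_of_ne hyx]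
          exact (hcf y hadj).symm
        · by_cases hyv : y = v
          · subst hyv
            rw [Function.update_self, Function.update_of_ne hxv]
            exact hcf x hadj.symm
          · rw [Function.update_of_ne hxv, Function.update_of_ne hyv]
            exact h3 x ((mem_insert.1 hx).resolve_left hxv) y ((mem_insert.1 hy).resolve_left hyv)
              hadj
  obtain ⟨f, hf⟩ := hne univ
  rw [mem_Col] at hf
  exact ⟨f, fun v => hf.1 v (mem_univ v), fun u v h => hf.2.2 u (mem_univ u) v (mem_univ v) h⟩

/-- the additive constant -/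
def ex (Δ : ℕ) : ℕ := if Δ < 51 then 6 else if Δ < 65 then 5 else if Δ < 75 then 4 else
  if Δ < 85 then 3 else 2

theorem main {V : Type*} [Fintype V] (G : SimpleGraph V) (Δ : ℕ) (hG : G.CliqueFree 3)
    (hdeg : ∀ v, (G.neighborSet v).ncard ≤ Δ) (L : V → Finset ℕ)
    (hL : ∀ v, (Δ + 1) / 2 + ex Δ ≤ (L v).card) :
    ∃ f : V → ℕ, (∀ v, f v ∈ L v) ∧ ∀ u v, G.Adj u v → f u ≠ f v := by
  have key : ∀ (c : CP), chk c = true → Δ ≤ c.d + 1 → c.q ≤ (Δ + 1) / 2 + ex Δ →
      ∃ f : V → ℕ, (∀ v, f v ∈ L v) ∧ ∀ u v, G.Adj u v → f u ≠ f v := by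
    intro c hc h1 h2
    exact choosable_of_chk c hc G hG (fun v => (hdeg v).trans h1) L (fun v => h2.trans (hL v))
  by_cases h11 : Δ ≤ 11
  · refine greedy G Δ hdeg L (fun v => le_trans ?_ (hL v))
    unfold ex; split_ifs <;> omega
  by_cases h95 : 95 ≤ Δ
  · refine choosable G ((Δ + 1) / 2 + 2) (by omega) hG (fun v => ?_) L (fun v => ?_)
    · have := hdeg v
      omega
    · refine le_trans ?_ (hL v)
      unfold ex; split_ifs <;> omega
  push Not at h11 h95
  have h : (Δ + 1) / 2 = 6 ∨ (Δ + 1) / 2 = 7 ∨ (Δ + 1) / 2 = 8 ∨ (Δ + 1) / 2 = 9 ∨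
    (Δ + 1) / 2 = 10 ∨ (Δ + 1) / 2 = 11 ∨ (Δ + 1) / 2 = 12 ∨ (Δ + 1) / 2 = 13 ∨
    (Δ + 1) / 2 = 14 ∨ (Δ + 1) / 2 = 15 ∨ (Δ + 1) / 2 = 16 ∨ (Δ + 1) / 2 = 17 ∨
    (Δ + 1) / 2 = 18 ∨ (Δ + 1) / 2 = 19 ∨ (Δ + 1) / 2 = 20 ∨ (Δ + 1) / 2 = 21 ∨
    (Δ + 1) / 2 = 22 ∨ (Δ + 1) / 2 = 23 ∨ (Δ + 1) / 2 = 24 ∨ (Δ + 1) / 2 = 25 ∨
    (Δ + 1) / 2 = 26 ∨ (Δ + 1) / 2 = 27 ∨ (Δ + 1) / 2 = 28 ∨ (Δ + 1) / 2 = 29 ∨
    (Δ + 1) / 2 = 30 ∨ (Δ + 1) / 2 = 31 ∨ (Δ + 1) / 2 = 32 ∨ (Δ + 1) / 2 = 33 ∨
    (Δ + 1) / 2 = 34 ∨ (Δ + 1) / 2 = 35 ∨ (Δ + 1) / 2 = 36 ∨ (Δ + 1) / 2 = 37 ∨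
    (Δ + 1) / 2 = 38 ∨ (Δ + 1) / 2 = 39 ∨ (Δ + 1) / 2 = 40 ∨ (Δ + 1) / 2 = 41 ∨
    (Δ + 1) / 2 = 42 ∨ (Δ + 1) / 2 = 43 ∨ (Δ + 1) / 2 = 44 ∨ (Δ + 1) / 2 = 45 ∨
    (Δ + 1) / 2 = 46 ∨ (Δ + 1) / 2 = 47 := by omega
  rcases h with h | h | h | h | h | h | h | h | h | h | h | h | h | h | h | h | h | h | h | h |
    h | h | h | h | h | h | h | h | h | h | h | h | h | h | h | h | h | h | h | h | h | h
  · exact key cert12 chk12 (by simp only [cert12]; omega)
      (by simp only [cert12]; unfold ex; split_ifs <;> omega)
  · exact key cert14 chk14 (by simp only [cert14]; omega)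
      (by simp only [cert14]; unfold ex; split_ifs <;> omega)
  · exact key cert16 chk16 (by simp only [cert16]; omega)
      (by simp only [cert16]; unfold ex; split_ifs <;> omega)
  · exact key cert18 chk18 (by simp only [cert18]; omega)
      (by simp only [cert18]; unfold ex; split_ifs <;> omega)
  · exact key cert20 chk20 (by simp only [cert20]; omega)
      (by simp only [cert20]; unfold ex; split_ifs <;> omega)
  · exact key cert22 chk22 (by simp only [cert22]; omega)
      (by simp only [cert22]; unfold ex; split_ifs <;> omega)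
  · exact key cert24 chk24 (by simp only [cert24]; omega)
      (by simp only [cert24]; unfold ex; split_ifs <;> omega)
  · exact key cert26 chk26 (by simp only [cert26]; omega)
      (by simp only [cert26]; unfold ex; split_ifs <;> omega)
  · exact key cert28 chk28 (by simp only [cert28]; omega)
      (by simp only [cert28]; unfold ex; split_ifs <;> omega)
  · exact key cert30 chk30 (by simp only [cert30]; omega)
      (by simp only [cert30]; unfold ex; split_ifs <;> omega)
  · exact key cert32 chk32 (by simp only [cert32]; omega)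
      (by simp only [cert32]; unfold ex; split_ifs <;> omega)
  · exact key cert34 chk34 (by simp only [cert34]; omega)
      (by simp only [cert34]; unfold ex; split_ifs <;> omega)
  · exact key cert36 chk36 (by simp only [cert36]; omega)
      (by simp only [cert36]; unfold ex; split_ifs <;> omega)
  · exact key cert38 chk38 (by simp only [cert38]; omega)
      (by simp only [cert38]; unfold ex; split_ifs <;> omega)
  · exact key cert40 chk40 (by simp only [cert40]; omega)
      (by simp only [cert40]; unfold ex; split_ifs <;> omega)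
  · exact key cert42 chk42 (by simp only [cert42]; omega)
      (by simp only [cert42]; unfold ex; split_ifs <;> omega)
  · exact key cert44 chk44 (by simp only [cert44]; omega)
      (by simp only [cert44]; unfold ex; split_ifs <;> omega)
  · exact key cert46 chk46 (by simp only [cert46]; omega)
      (by simp only [cert46]; unfold ex; split_ifs <;> omega)
  · exact key cert48 chk48 (by simp only [cert48]; omega)
      (by simp only [cert48]; unfold ex; split_ifs <;> omega)
  · exact key cert50 chk50 (by simp only [cert50]; omega)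
      (by simp only [cert50]; unfold ex; split_ifs <;> omega)
  · exact key cert52 chk52 (by simp only [cert52]; omega)
      (by simp only [cert52]; unfold ex; split_ifs <;> omega)
  · exact key cert54 chk54 (by simp only [cert54]; omega)
      (by simp only [cert54]; unfold ex; split_ifs <;> omega)
  · exact key cert56 chk56 (by simp only [cert56]; omega)
      (by simp only [cert56]; unfold ex; split_ifs <;> omega)
  · exact key cert58 chk58 (by simp only [cert58]; omega)
      (by simp only [cert58]; unfold ex; split_ifs <;> omega)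
  · exact key cert60 chk60 (by simp only [cert60]; omega)
      (by simp only [cert60]; unfold ex; split_ifs <;> omega)
  · exact key cert62 chk62 (by simp only [cert62]; omega)
      (by simp only [cert62]; unfold ex; split_ifs <;> omega)
  · exact key cert64 chk64 (by simp only [cert64]; omega)
      (by simp only [cert64]; unfold ex; split_ifs <;> omega)
  · exact key cert66 chk66 (by simp only [cert66]; omega)
      (by simp only [cert66]; unfold ex; split_ifs <;> omega)
  · exact key cert68 chk68 (by simp only [cert68]; omega)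
      (by simp only [cert68]; unfold ex; split_ifs <;> omega)
  · exact key cert70 chk70 (by simp only [cert70]; omega)
      (by simp only [cert70]; unfold ex; split_ifs <;> omega)
  · exact key cert72 chk72 (by simp only [cert72]; omega)
      (by simp only [cert72]; unfold ex; split_ifs <;> omega)
  · exact key cert74 chk74 (by simp only [cert74]; omega)
      (by simp only [cert74]; unfold ex; split_ifs <;> omega)
  · exact key cert76 chk76 (by simp only [cert76]; omega)
      (by simp only [cert76]; unfold ex; split_ifs <;> omega)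
  · exact key cert78 chk78 (by simp only [cert78]; omega)
      (by simp only [cert78]; unfold ex; split_ifs <;> omega)
  · exact key cert80 chk80 (by simp only [cert80]; omega)
      (by simp only [cert80]; unfold ex; split_ifs <;> omega)
  · exact key cert82 chk82 (by simp only [cert82]; omega)
      (by simp only [cert82]; unfold ex; split_ifs <;> omega)
  · exact key cert84 chk84 (by simp only [cert84]; omega)
      (by simp only [cert84]; unfold ex; split_ifs <;> omega)
  · exact key cert86 chk86 (by simp only [cert86]; omega)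
      (by simp only [cert86]; unfold ex; split_ifs <;> omega)
  · exact key cert88 chk88 (by simp only [cert88]; omega)
      (by simp only [cert88]; unfold ex; split_ifs <;> omega)
  · exact key cert90 chk90 (by simp only [cert90]; omega)
      (by simp only [cert90]; unfold ex; split_ifs <;> omega)
  · exact key cert92 chk92 (by simp only [cert92]; omega)
      (by simp only [cert92]; unfold ex; split_ifs <;> omega)
  · exact key cert94 chk94 (by simp only [cert94]; omega)
      (by simp only [cert94]; unfold ex; split_ifs <;> omega)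

end Pool.Agent.MP_7aba48_co_CP
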